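import Pool.Agent.H50.LQ.Final

/-! # Integers with a large prime factor between consecutive cubes

For every `n ≥ 1` at least `n²/100` integers `a` strictly between `n³` and `(n+1)³` have a prime
factor `p > a^(3/4)`, that is `a = k p` with `k < a^(1/4)`; a prime between the cubes is the
case `k = 1`. -/

theorem Pool.Agent.Results.MP_ecf8ec_nt.LargePrimeFactor.result (n : ℕ) (hn : 1 ≤ n) :
    n ^ 2 ≤ 100 * {a : ℕ | n ^ 3 < a ∧ a < (n + 1) ^ 3 ∧
      ∃ p, p.Prime ∧ p ∣ a ∧ a ^ 3 < p ^ 4}.ncard :=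
  H50LQ.main n hn
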